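import Pool.Agent.Work.MP_fef182_gt.FlatDefs
import Pool.Agent.Work.MP_fef182_gt.FLg
import Pool.Agent.Work.MP_fef182_gt.FLh
import Pool.Agent.Work.MP_fef182_gt.Strata2

/-!
# Spaces with flat regular part are flat orbifolds with the structure asked for in Q1

No smooth, polyhedral or orbifold structure is assumed: the metric space `X` contains a closed set
`S` of Hausdorff dimension at most `n - 4`; the complement of `S` is dense and locally isometric
to Euclidean space, its length metric is the metric of `X`, and balls have at most Euclidean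
volume growth. These are properties of a noncollapsed limit of Einstein manifolds whose regular
part is flat.
-/

open Set Metric Filter Topology MeasureTheory Measure

open scoped ENNReal NNReal

namespace Pool.Agent.Results.MP_fef182_gt.FlatLimits

open Pool.Agent.Work.MP_fef182_gt

theorem flatAt_of_regular {n : ℕ} {X : Type*} [MetricSpace X] {S : Set X} (hS : IsClosed S)
    {x : X} (hx : x ∈ Sᶜ) (h : FlatLim.Regular n x) : ∃ δ > 0, FlatAt n Sᶜ x δ := by
  obtain ⟨ρ, hρ, ψ, h0, himg, hiso⟩ := h
  obtain ⟨ε, hε, hεS⟩ := Metric.isOpen_iff.1 hS.isOpen_compl x hx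
  have hm : 0 < min ρ ε := lt_min hρ hε
  refine ⟨min ρ ε, hm, ψ, h0, ?_, ?_, ?_⟩
  · intro a ha b hb
    exact hiso a (ball_subset_ball (min_le_left _ _) ha) b (ball_subset_ball (min_le_left _ _) hb)
  · have h1 : IsoAt (univ : Set X) ψ 0 ρ := ⟨hiso, by rw [himg, h0], subset_univ _⟩
    exact (h1.mono hm (min_le_left _ _)).2.1
  · rw [h0]
    exact (ball_subset_ball (min_le_right _ _)).trans hεS

theorem model_conv {n : ℕ} {X : Type*} [MetricSpace X] {x : X} (h : FEF.Model n x) :
    FlatLim.Model n x := by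
  obtain ⟨ρ, hρ, G, hG, hfree, φ, h0, himg, hd⟩ := h
  refine ⟨ρ, hρ, G, hG, hfree, φ, ⟨h0, himg, ?_, ?_⟩⟩
  · intro p hp q hq γ hγ
    exact Real.le_sqrt_of_sq_le ((hd p q hp hq).1 γ hγ)
  · intro p hp q hq
    obtain ⟨γ, hγ, h1⟩ := (hd p q hp hq).2
    refine ⟨γ, hγ, ?_⟩
    unfold FlatLim.pairDist
    rw [← h1, Real.sqrt_sq dist_nonneg]

/-- **Flat limits.** A proper metric space `X` with a closed set `S` of Hausdorff dimension at most
`n - 4` whose complement is dense, flat of dimension `n`, and carries the metric as its length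
metric, and whose balls satisfy local Euclidean upper volume bounds, is the quotient of Euclidean
space by a discrete group `Γ` of isometries. There is a closed set `Sorb` inside `S`, of Hausdorff
dimension at most `n - 5` and covered by countably many Lipschitz images of `ℝ^(n-5)` (countable
if `n = 5`), such that every point outside `Sorb` has a ball isometric to a ball of
`ℝ^(n-4) × ℝ^4 / G` with `G` a finite group of linear isometries acting freely on the sphere, and
the singular points outside `Sorb` form a countable union of isometrically embedded flat balls of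
dimension `n - 4`. If `Γ` preserves the orientation, then `Sorb` is empty for `n = 5` and of
dimension at most `n - 6` for `n ≥ 6`. -/
theorem result {n : ℕ} (hn : 5 ≤ n) {X : Type*} [MetricSpace X] [Nonempty X] [ProperSpace X]
    [MeasurableSpace X] [BorelSpace X] {S : Set X} (hS : IsClosed S) (hdense : Dense Sᶜ)
    (hflat : ∀ x, x ∉ S → FlatLim.Regular n x) (hlen : FlatLim.LengthOn Sᶜ)
    (hdim : dimH S ≤ ((n - 4 : ℕ) : ℝ≥0∞)) (hvol : FlatLim.VolBound n X) :
    ∃ (Γ : Subgroup (FlatLim.E n ≃ᵢ FlatLim.E n)) (F : FlatLim.E n → X) (Sorb : Set X),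
      FlatLim.IsQuotient Γ F ∧ Sorb ⊆ S ∧ FlatLim.IsExceptional n Sorb ∧
      FlatLim.LipPieces (n - 5) Sorb ∧ (n = 5 → Sorb.Countable) ∧
      (FlatLim.Oriented Γ → (n = 5 → Sorb = ∅) ∧
        (6 ≤ n → FlatLim.LipPieces (n - 6) Sorb)) := by
  have hflat' : ∀ x ∈ Sᶜ, ∃ δ > 0, FlatAt n Sᶜ x δ := fun x hx =>
    flatAt_of_regular hS hx (hflat x hx)
  have hnull : (μH[((n - 2 : ℕ) : ℝ)] : Measure X) Sᶜᶜ = 0 := by
    rw [compl_compl]
    have h1 : dimH S < ((((n - 2 : ℕ) : ℝ≥0)) : ℝ≥0∞) := by
      refine lt_of_le_of_lt hdim ?_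
      rw [ENNReal.coe_natCast]
      exact_mod_cast (by omega : n - 4 < n - 2)
    have h2 := hausdorffMeasure_of_dimH_lt h1
    rw [NNReal.coe_natCast] at h2
    exact h2
  obtain ⟨F, hlip, hiso, hseg⟩ := developed_map (n := n) (by omega) hdense.nonempty hflat'
    hnull hvol
  have hF : Dev Sᶜ F := ⟨hlip, hiso, hseg⟩
  have hmin := hF.min hflat' hlen hdense
  have hsurj : Function.Surjective F := by
    intro x
    obtain ⟨y, hy, _⟩ := hF.submetry hflat' hlen hdense 0 x
    exact ⟨y, hy⟩
  obtain ⟨Sorb, h1, h2, h3, ⟨L, hL, hL2⟩, h4, h5⟩ := FEF.strata2 (S := S) hn hdim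
    (Γ := devGroup F) (F := F) hsurj
    (fun g hg y => hg y) hlip hmin (fun z r => hF.finite hflat' z r)
    (fun y hy g hg hgy => hF.free hflat' hy hg (one_mem _) (by rw [hgy]; rfl))
  have hpieces := singular_pieces (n := n) (X := X) (by omega) (U := Sorbᶜ)
    h1.isOpen_compl (fun x hx => h4 x hx)
  refine ⟨devGroup F, F, Sorb, ⟨fun z r => hF.finite hflat' z r, hsurj, ?_, ?_, ?_⟩, h2,
    ⟨h1, fun x hx => model_conv (h4 x hx), hpieces⟩, ⟨h3, L, hL, hL2⟩, ?_, ?_⟩
  · intro y y'
    constructor
    · intro h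
      exact hF.trans hflat' hlen hdense h
    · rintro ⟨g, hg, rfl⟩
      exact (hg y).symm
  · intro y y' g hg
    have := hlip (g y) y'
    rw [hg y] at this
    exact this
  · intro y y'
    obtain ⟨g, hg, hgd⟩ := hmin y y'
    exact ⟨g, hg, hgd.symm⟩
  · rintro rfl
    refine Set.Countable.mono hL2 (countable_iUnion fun k => ?_)
    have : Subsingleton (FlatLim.E (5 - 5)) := by
      change Subsingleton (EuclideanSpace ℝ (Fin 0))
      infer_instance
    exact (Set.subsingleton_range _).countable
  · intro hor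
    obtain ⟨h6, h7⟩ := h5 (fun g hg => hor g hg)
    exact ⟨h6, fun hn6 => h7 hn6⟩

end Pool.Agent.Results.MP_fef182_gt.FlatLimits
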